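import Pool.Agent.Helper79.VC.Main
import Pool.Agent.VB.C

/-!
# Complementing some binary relations off the diagonal
-/

set_option autoImplicit false
set_option linter.unusedSectionVars false
set_option linter.unusedVariables false

namespace Pool.Agent.Helper79.VCM

open Set Pool.Agent.Helper5.DU Pool.Agent.Helper6.Str Pool.Agent.Helper79.VC

variable {L : FirstOrder.Language.{0, 0}} {M N : Type}

/-- the atomic facts which are complemented -/
def FlP (B : Set (L.Relations 2)) {n : ℕ} (R : L.Relations n) (v : Fin n → M) : Prop :=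
  ∃ (R2 : L.Relations 2) (x y : M), x ≠ y ∧ R2 ∈ B ∧
    (⟨n, R, v⟩ : (n : ℕ) × (L.Relations n × (Fin n → M))) = ⟨2, R2, ![x, y]⟩

theorem flP_two {B : Set (L.Relations 2)} {R : L.Relations 2} {x y : M} :
    FlP B R ![x, y] ↔ x ≠ y ∧ R ∈ B := by
  constructor
  · rintro ⟨R2, x', y', hne, hB, h⟩
    simp only [Sigma.mk.injEq, heq_eq_eq, Prod.mk.injEq, true_and] at h
    obtain ⟨rfl, h2⟩ := h
    have h3 := congrFun h2 0
    have h4 := congrFun h2 1
    simp only [Matrix.cons_val_zero, Matrix.cons_val_one] at h3 h4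
    subst h3
    subst h4
    exact ⟨hne, hB⟩
  · rintro ⟨hne, hB⟩
    exact ⟨R, x, y, hne, hB, rfl⟩

theorem flP_congr {B : Set (L.Relations 2)} {n : ℕ} (R : L.Relations n) {p : Set (M × N)}
    (hp : ∀ a ∈ p, ∀ b ∈ p, a.1 = b.1 ↔ a.2 = b.2) (v : Fin n → M × N) (hv : ∀ i, v i ∈ p) :
    FlP B R (fun i => (v i).1) ↔ FlP B R (fun i => (v i).2) := by
  constructor
  · rintro ⟨R2, x', y', hne, hB, h⟩
    have hn : n = 2 := congrArg Sigma.fst h
    subst hn
    simp only [Sigma.mk.injEq, heq_eq_eq, Prod.mk.injEq, true_and] at h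
    obtain ⟨rfl, h2⟩ := h
    have h3 := congrFun h2 0
    have h4 := congrFun h2 1
    simp only [Matrix.cons_val_zero, Matrix.cons_val_one] at h3 h4
    refine ⟨R, (v 0).2, (v 1).2, fun h => hne ?_, hB, ?_⟩
    · rw [← h3, ← h4]
      exact (hp _ (hv 0) _ (hv 1)).mpr h
    · simp only [Sigma.mk.injEq, heq_eq_eq, Prod.mk.injEq, true_and]
      funext i
      fin_cases i <;> rfl
  · rintro ⟨R2, x', y', hne, hB, h⟩
    have hn : n = 2 := congrArg Sigma.fst h
    subst hn
    simp only [Sigma.mk.injEq, heq_eq_eq, Prod.mk.injEq, true_and] at h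
    obtain ⟨rfl, h2⟩ := h
    have h3 := congrFun h2 0
    have h4 := congrFun h2 1
    simp only [Matrix.cons_val_zero, Matrix.cons_val_one] at h3 h4
    refine ⟨R, (v 0).1, (v 1).1, fun h => hne ?_, hB, ?_⟩
    · rw [← h3, ← h4]
      exact (hp _ (hv 0) _ (hv 1)).mp h
    · simp only [Sigma.mk.injEq, heq_eq_eq, Prod.mk.injEq, true_and]
      funext i
      fin_cases i <;> rfl

/-- complement the relations in `B` off the diagonal -/
def flip (B : Set (L.Relations 2)) (S : L.Structure M) : L.Structure M where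
  funMap := fun {n} f v => S.funMap f v
  RelMap := fun {n} R v => (FlP B R v ↔ ¬ S.RelMap R v)

theorem flip_rel {B : Set (L.Relations 2)} {S : L.Structure M} {n : ℕ} (R : L.Relations n)
    (v : Fin n → M) : (flip B S).RelMap R v ↔ (FlP B R v ↔ ¬ S.RelMap R v) := Iff.rfl

theorem flip_two {B : Set (L.Relations 2)} {S : L.Structure M} {R : L.Relations 2} {x y : M}
    (hne : x ≠ y) : (flip B S).RelMap R ![x, y] ↔ (R ∈ B ↔ ¬ S.RelMap R ![x, y]) := by
  rw [flip_rel, flP_two]
  simp [hne]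

theorem flip_flip (B : Set (L.Relations 2)) (S : L.Structure M) : flip B (flip B S) = S := by
  obtain ⟨fm, rm⟩ := S
  unfold flip
  congr 1
  funext n R v
  apply propext
  simp only
  tauto

theorem atEq_flip {B : Set (L.Relations 2)} {S : L.Structure M} {S' : L.Structure N}
    {p : Set (M × N)} (h : AtEq S S' p) : AtEq (flip B S) (flip B S') p := by
  refine ⟨h.1, fun n R v hv => ?_⟩
  rw [flip_rel, flip_rel, flP_congr R h.1 v hv, h.2 n R v hv]

theorem bfr_flip (B : Set (L.Relations 2)) {S : L.Structure M} {S' : L.Structure N}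
    {U : Set M} {V : Set N} {γ : Ordinal.{0}} : ∀ {p : Set (M × N)}, BFR S S' U V γ p →
      BFR (flip B S) (flip B S') U V γ p := by
  induction γ using WellFoundedLT.induction with
  | _ γ ih =>
    intro p h
    rw [BFR.def]
    refine ⟨atEq_flip h.atEq, fun β hβ => ⟨fun x hx => ?_, fun y hy => ?_⟩⟩
    · obtain ⟨y, hy, h1⟩ := h.forth hβ hx
      exact ⟨y, hy, ih β hβ h1⟩
    · obtain ⟨x, hx, h1⟩ := h.back hβ hy
      exact ⟨x, hx, ih β hβ h1⟩

theorem bfr_flip_iff {B : Set (L.Relations 2)} {S : L.Structure M} {S' : L.Structure N}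
    {U : Set M} {V : Set N} {γ : Ordinal.{0}} {p : Set (M × N)} :
    BFR (flip B S) (flip B S') U V γ p ↔ BFR S S' U V γ p := by
  refine ⟨fun h => ?_, bfr_flip B⟩
  have := bfr_flip B h
  rwa [flip_flip, flip_flip] at this

/-- the flipped class -/
def flipK (B : Set (L.Relations 2)) (K : Set (L.Structure ℕ)) : Set (L.Structure ℕ) :=
  {S | flip B S ∈ K}

theorem scat_flip {B : Set (L.Relations 2)} {K : Set (L.Structure ℕ)} (h : Scat K) :
    Scat (flipK B K) := by
  intro γ hγ n
  obtain ⟨ρ, hρ⟩ := h γ hγ n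
  refine ⟨fun m => (flip B (ρ m).1, (ρ m).2), fun S hS v => ?_⟩
  obtain ⟨m, h1, h2⟩ := hρ (flip B S) hS v
  refine ⟨m, ?_, ?_⟩
  · show flip B (flip B (ρ m).1) ∈ K
    rw [flip_flip]
    exact h1
  · have := bfr_flip B h2
    rwa [flip_flip] at this

theorem closedLev_flip {B : Set (L.Relations 2)} {K : Set (L.Structure ℕ)} {d : Ordinal.{0}}
    (h : ClosedLev K d) : ClosedLev (flipK B K) d :=
  fun S hS S' hSS' => h _ hS _ (bfr_flip B hSS')

theorem lev_flip {B : Set (L.Relations 2)} {K : Set (L.Structure ℕ)} {S : L.Structure M}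
    (h : Lev K S) : Lev (flipK B K) (flip B S) := by
  intro γ hγ
  obtain ⟨S', hS', h'⟩ := h γ hγ
  refine ⟨flip B S', ?_, bfr_flip B h'⟩
  show flip B (flip B S') ∈ K
  rwa [flip_flip]

theorem noCtblType_flip {B : Set (L.Relations 2)} {S : L.Structure M} (h : NoCtblType S) :
    NoCtblType (flip B S) := by
  rintro ⟨A, hA, hA'⟩
  refine h ⟨A, hA, fun F hF c => ?_⟩
  obtain ⟨d, hd, hd'⟩ := hA' F hF c
  exact ⟨d, hd, fun γ hγ => bfr_flip_iff.mp (hd' γ hγ)⟩

/-- adjacency in the Gaifman graph of the flipped structure, when all relations are unary or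
binary -/
theorem gaif_flip {B : Set (L.Relations 2)} (har : ∀ n, n ≠ 1 → n ≠ 2 → IsEmpty (L.Relations n))
    {S : L.Structure M} {x y : M} : (gaif (flip B S)).Adj x y ↔ x ≠ y ∧
      ¬ ((∀ R : L.Relations 2, S.RelMap R ![x, y] ↔ R ∈ B) ∧
        (∀ R : L.Relations 2, S.RelMap R ![y, x] ↔ R ∈ B)) := by
  constructor
  · rintro ⟨hne, n, R, v, hv, ⟨i, hi⟩, ⟨j, hj⟩⟩
    refine ⟨hne, ?_⟩
    have hij : i ≠ j := fun h => hne (by rw [← hi, ← hj, h])
    by_cases h1 : n = 1
    · subst h1
      exact absurd (Subsingleton.elim i j) hij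
    · by_cases h2 : n = 2
      · subst h2
        rintro ⟨h3, h4⟩
        have hcase : (i = 0 ∧ j = 1) ∨ (i = 1 ∧ j = 0) := by
          fin_cases i <;> fin_cases j <;> simp_all
        rcases hcase with ⟨rfl, rfl⟩ | ⟨rfl, rfl⟩
        · have hv2 : v = ![x, y] := by
            funext k
            fin_cases k
            · exact hi
            · exact hj
          rw [hv2, flip_two hne, h3 R] at hv
          tauto
        · have hv2 : v = ![y, x] := by
            funext k
            fin_cases k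
            · exact hj
            · exact hi
          rw [hv2, flip_two hne.symm, h4 R] at hv
          tauto
      · exact ((har n h1 h2).false R).elim
  · rintro ⟨hne, h⟩
    refine ⟨hne, ?_⟩
    by_cases h1 : ∀ R : L.Relations 2, S.RelMap R ![x, y] ↔ R ∈ B
    · have h2 : ¬ ∀ R : L.Relations 2, S.RelMap R ![y, x] ↔ R ∈ B := fun h2 => h ⟨h1, h2⟩
      push Not at h2
      obtain ⟨R, hR⟩ := h2
      refine ⟨2, R, ![y, x], ?_, ⟨1, rfl⟩, ⟨0, rfl⟩⟩
      rw [flip_two hne.symm]
      tauto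
    · push Not at h1
      obtain ⟨R, hR⟩ := h1
      refine ⟨2, R, ![x, y], ?_, ⟨0, rfl⟩, ⟨1, rfl⟩⟩
      rw [flip_two hne]
      tauto

open Pool.Agent.Helper97.LO in
/-- if there are countable sets realising all types then the structure is tame -/
theorem tameX_of_not_noCtbl {S : L.Structure M} (h : ¬ NoCtblType S) : TameX S univ := by
  unfold NoCtblType at h
  rw [not_not] at h
  obtain ⟨A, hA, hA'⟩ := h
  refine ⟨M, S, A ∩ univ, hA.mono inter_subset_left, fun γ hγ => ?_⟩
  have hclo : Clo S univ γ A := by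
    intro F hF c _
    obtain ⟨d, hd, hd'⟩ := hA' F (fun x hx => (hF hx).1) c
    exact ⟨d, ⟨hd, mem_univ _⟩, hd' γ hγ⟩
  have := hclo.bfr (F := ∅) finite_empty (empty_subset _)
  refine BFR.anti (empty_subset _) this

/-- the graph of the pairs whose type differs from the symmetric type `B` -/
def ngr (B : Set (L.Relations 2)) (S : L.Structure M) : SimpleGraph M where
  Adj x y := x ≠ y ∧ ¬ ((∀ R : L.Relations 2, S.RelMap R ![x, y] ↔ R ∈ B) ∧
        (∀ R : L.Relations 2, S.RelMap R ![y, x] ↔ R ∈ B))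
  symm := ⟨fun x y h => ⟨h.1.symm, fun h' => h.2 ⟨h'.2, h'.1⟩⟩⟩
  loopless := ⟨fun _ h => h.1 rfl⟩

variable [∀ n, IsEmpty (L.Functions n)] [∀ n, Countable (L.Relations n)]

open Pool.Agent.Helper97.LO in
/-- **Sparse structures are tame.** -/
theorem sparse_tame (har : ∀ n, n ≠ 1 → n ≠ 2 → IsEmpty (L.Relations n))
    {K : Set (L.Structure ℕ)} (hS : Scat K) {d : Ordinal.{0}} (hd : d < om1)
    (hcl : ClosedLev K d) {S : L.Structure M} (hlev : Lev K S) (B : Set (L.Relations 2))
    (hTK : ¬ HasTK (ngr B S)) : TameX S univ := by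
  apply tameX_of_not_noCtbl
  intro hNT
  apply hTK
  have h1 := Pool.Agent.Helper97.VC.close_of_swap (S := flip B S)
    (fun Q C D F c d g h1 h2 h3 h4 h5 h6 h7 => swap_cpt h1 h2 h3 h4 h5 h6 F h7)
    (noCtblType_flip hNT) (dich (scat_flip (B := B) hS) hd (closedLev_flip hcl) (lev_flip hlev))
  have h2 : gaif (flip B S) = ngr B S := by
    ext x y
    rw [gaif_flip har]
    rfl
  rwa [h2] at h1

end Pool.Agent.Helper79.VCM
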