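import Pool.Agent.Helper79.VC.Main
import Pool.Agent.VB.C
import Pool.Agent.Helper97.LO.MDDefs

/-!
# Reflection of the large model in countable models of the class
-/

set_option autoImplicit false
set_option linter.unusedSectionVars false
set_option linter.unusedVariables false

namespace Pool.Agent.Helper79.VCM

open Set Pool.Agent.Helper5.DU Pool.Agent.Helper6.Str Pool.Agent.Helper79.VC
  Pool.Agent.Helper97.VC Pool.Agent.Helper97.MD

variable {L : FirstOrder.Language.{0, 0}} {M N : Type}

section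
variable [∀ n, IsEmpty (L.Functions n)] [∀ n, Countable (L.Relations n)]

/-- **Reflection.** A countable set closed under prescribed functions carries a member of the
class. -/
theorem exists_reflect {K : Set (L.Structure ℕ)} (hS : Scat K) {d : Ordinal.{0}} (hd : d < om1)
    (hcl : ClosedLev K d) {S : L.Structure M} (hlev : Lev K S) (g : Finset M → Set M)
    (hg : ∀ F, (g F).Countable) :
    ∃ f : ℕ → M, Function.Injective f ∧ pl S f ∈ K ∧
      ∀ F : Finset M, (F : Set M) ⊆ range f → g F ⊆ range f := by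
  classical
  have hκ : ∀ F : Finset M, ∃ T : Set M, T.Countable ∧ ∀ c : M, ∃ c' ∈ T,
      BFR S S univ univ d (insert (c, c') ((fun a => (a, a)) '' (F : Set M))) := by
    intro F
    obtain ⟨κ, hκ⟩ := countable_classes hS hd hlev F
    have hrep : ∀ (m : ℕ), ∃ T : Set M, T.Countable ∧
        ((∃ c, κ c = m) → ∃ c ∈ T, κ c = m) := by
      intro m
      by_cases h : ∃ c, κ c = m
      · obtain ⟨c, hc⟩ := h
        exact ⟨{c}, countable_singleton _, fun _ => ⟨c, rfl, hc⟩⟩
      · exact ⟨∅, countable_empty, fun h' => absurd h' h⟩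
    choose T hT1 hT2 using hrep
    refine ⟨⋃ m, T m, countable_iUnion hT1, fun c => ?_⟩
    obtain ⟨c', hc', hcc⟩ := hT2 (κ c) ⟨c, rfl⟩
    exact ⟨c', mem_iUnion.mpr ⟨κ c, hc'⟩, hκ c c' hcc.symm⟩
  choose T hT1 hT2 using hκ
  obtain ⟨B, hBc, hB⟩ := exists_closed (fun F => g F ∪ T F) (fun F => (hg F).union (hT1 F))
  have hBd : ∀ F : Finset M, (F : Set M) ⊆ B → ∀ c : M, ∃ c' ∈ B,
      BFR S S univ univ d (insert (c, c') ((fun a => (a, a)) '' (F : Set M))) := by
    intro F hF c
    obtain ⟨c', hc', h⟩ := hT2 F c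
    exact ⟨c', hB F hF (Or.inr hc'), h⟩
  have hinf := infinite_of_lev hlev
  obtain ⟨f, hf, hfB⟩ := exists_enum hBc (fun F hF c => by
    obtain ⟨c', hc', h⟩ := hBd F hF c
    exact ⟨c', hc', h.mono (bot_le)⟩)
  have hSB : BFR S (pl S f) univ univ d ∅ := by
    have h4 : BFR S S univ B d ∅ := closed_rel hBd d le_rfl ∅ finite_empty
      (fun a ha => absurd ha (notMem_empty a))
      (BFR.refl S univ d fun a ha => absurd ha (notMem_empty a))
    rw [← hfB] at h4
    exact BFR_pl' hf h4 fun a ha => absurd ha (notMem_empty a)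
  obtain ⟨S1, hS1, h5⟩ := hlev d hd
  have hK : pl S f ∈ K := hcl S1 hS1 _ (by
    refine BFR.trans (h5.symm (q := ∅) fun a ha => absurd ha (notMem_empty a)) hSB ?_
    exact fun a ha => absurd ha (notMem_empty a))
  refine ⟨f, hf, hK, fun F hF => ?_⟩
  rw [hfB] at hF ⊢
  exact fun x hx => hB F hF (Or.inl hx)

end

/-! ### primitive sets -/

/-- the elements generated by `x` and `y` inside `R` -/
inductive Gen {A : Type} (τ : M → M → A) (R : Set M) (x y : M) : M → Prop
  | left : Gen τ R x y x
  | right : Gen τ R x y y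
  | step (z u v : M) : z ∈ R → Gen τ R x y u → Gen τ R x y v → τ z u ≠ τ z v → Gen τ R x y z

theorem Gen.mono {A : Type} {τ : M → M → A} {R R' : Set M} (h : R ⊆ R') {x y z : M}
    (hz : Gen τ R x y z) : Gen τ R' x y z := by
  induction hz with
  | left => exact Gen.left
  | right => exact Gen.right
  | step z u v hz _ _ hne ih1 ih2 => exact Gen.step z u v (h hz) ih1 ih2 hne

theorem Gen.finite {A : Type} {τ : M → M → A} {R : Set M} {x y z : M}
    (hz : Gen τ R x y z) : ∃ F : Set M, F.Finite ∧ F ⊆ R ∧ Gen τ F x y z := by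
  induction hz with
  | left => exact ⟨∅, finite_empty, empty_subset _, Gen.left⟩
  | right => exact ⟨∅, finite_empty, empty_subset _, Gen.right⟩
  | step z u v hz _ _ hne ih1 ih2 =>
    obtain ⟨F1, hF1, hR1, h1⟩ := ih1
    obtain ⟨F2, hF2, hR2, h2⟩ := ih2
    refine ⟨insert z (F1 ∪ F2), (hF1.union hF2).insert z, ?_, ?_⟩
    · rintro w (rfl | hw | hw)
      · exact hz
      · exact hR1 hw
      · exact hR2 hw
    · exact Gen.step z u v (mem_insert _ _)
        (h1.mono (subset_union_left.trans (subset_insert _ _)))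
        (h2.mono (subset_union_right.trans (subset_insert _ _))) hne

/-- a primitive set is generated by any two of its elements -/
theorem IsPrim.gen {A : Type} {τ : M → M → A} {R : Set M} (h : IsPrim τ R) {x y : M}
    (hx : x ∈ R) (hy : y ∈ R) (hxy : x ≠ y) {z : M} (hz : z ∈ R) : Gen τ R x y z := by
  have hsub : {z | z ∈ R ∧ Gen τ R x y z} ⊆ R := fun z hz => hz.1
  rcases h _ hsub (fun z hz hzn u hu v hv => by
    by_contra hne
    exact hzn ⟨hz, Gen.step z u v hz hu.2 hv.2 hne⟩) with h1 | h1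
  · exact absurd (h1 ⟨hx, Gen.left⟩ ⟨hy, Gen.right⟩) hxy
  · have : z ∈ {z | z ∈ R ∧ Gen τ R x y z} := by rw [h1]; exact hz
    exact this.2

/-- a set which is generated by any two of its elements is primitive -/
theorem isPrim_of_gen {A : Type} {τ : M → M → A} {R : Set M}
    (h : ∀ x ∈ R, ∀ y ∈ R, x ≠ y → ∀ z ∈ R, Gen τ R x y z) : IsPrim τ R := by
  intro X hXR hX
  by_cases hs : X.Subsingleton
  · exact Or.inl hs
  right
  rw [not_subsingleton_iff] at hs
  obtain ⟨x, hx, y, hy, hxy⟩ := hs
  refine Subset.antisymm hXR fun z hz => ?_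
  have hg := h x (hXR hx) y (hXR hy) hxy z hz
  have key : ∀ w, Gen τ R x y w → w ∈ X := by
    intro w hw
    induction hw with
    | left => exact hx
    | right => exact hy
    | step z u v hz _ _ hne ih1 ih2 =>
      by_contra hzn
      exact hne (hX z hz hzn u ih1 v ih2)
  exact key z hg

/-- generation is pulled back along injective maps -/
theorem Gen.pull {A : Type} {τ : M → M → A} {R : Set M} {f : N → M} (hf : Function.Injective f)
    (hR : R ⊆ range f) {x y : N} {z : M} (hz : Gen τ R (f x) (f y) z) :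
    ∃ w, f w = z ∧ Gen (fun a b => τ (f a) (f b)) (f ⁻¹' R) x y w := by
  induction hz with
  | left => exact ⟨x, rfl, Gen.left⟩
  | right => exact ⟨y, rfl, Gen.right⟩
  | step z u v hz _ _ hne ih1 ih2 =>
    obtain ⟨u', rfl, hu⟩ := ih1
    obtain ⟨v', rfl, hv⟩ := ih2
    obtain ⟨w, rfl⟩ := hR hz
    exact ⟨w, rfl, Gen.step w u' v' hz hu hv hne⟩

/-- closing off a primitive set -/
theorem exists_prim_closure {A : Type} (τ : M → M → A) {R : Set M} (h : IsPrim τ R) :
    ∃ g : Finset M → Set M, (∀ F, (g F).Countable) ∧ ∀ (f : N → M), Function.Injective f →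
      (∀ F : Finset M, (F : Set M) ⊆ range f → g F ⊆ range f) →
      IsPrim (fun a b => τ (f a) (f b)) (f ⁻¹' R) := by
  classical
  have hch : ∀ x y z : M, ∃ F : Set M, F.Finite ∧ F ⊆ R ∧ (x ∈ R → y ∈ R → x ≠ y → z ∈ R →
      Gen τ F x y z) := by
    intro x y z
    by_cases hc : x ∈ R ∧ y ∈ R ∧ x ≠ y ∧ z ∈ R
    · obtain ⟨F, h1, h2, h3⟩ := (IsPrim.gen h hc.1 hc.2.1 hc.2.2.1 hc.2.2.2).finite
      exact ⟨F, h1, h2, fun _ _ _ _ => h3⟩
    · exact ⟨∅, finite_empty, empty_subset _, fun h1 h2 h3 h4 => absurd ⟨h1, h2, h3, h4⟩ hc⟩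
  choose G hG1 hG2 hG3 using hch
  refine ⟨fun F => ⋃ x ∈ F, ⋃ y ∈ F, ⋃ z ∈ F, G x y z, fun F => ?_, fun f hf hcl => ?_⟩
  · exact (F.finite_toSet.countable).biUnion fun x _ => (F.finite_toSet.countable).biUnion
      fun y _ => (F.finite_toSet.countable).biUnion fun z _ => (hG1 x y z).countable
  · apply isPrim_of_gen
    intro x hx y hy hxy z hz
    have h1 : Gen τ (G (f x) (f y) (f z)) (f x) (f y) (f z) :=
      hG3 _ _ _ hx hy (fun h => hxy (hf h)) hz
    have h2 : G (f x) (f y) (f z) ⊆ range f := by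
      intro w hw
      refine hcl {f x, f y, f z} ?_ ?_
      · intro a ha
        simp only [Finset.coe_insert, Finset.coe_singleton, mem_insert_iff,
          mem_singleton_iff] at ha
        rcases ha with rfl | rfl | rfl
        · exact mem_range_self _
        · exact mem_range_self _
        · exact mem_range_self _
      · simp only [mem_iUnion]
        exact ⟨f x, by simp, f y, by simp, f z, by simp, hw⟩
    obtain ⟨w, hw1, hw2⟩ := h1.pull hf h2
    have : w = z := hf hw1
    subst this
    exact hw2.mono (preimage_mono (hG2 _ _ _))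

end Pool.Agent.Helper79.VCM
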