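import Pool.Agent.VB.C
import Pool.Agent.Helper79.VCM.Flip
import Pool.Agent.Helper79.VCM.Reflect

/-!
# Sparse structures are tame; sparseness of primitive subsets is reflected
-/

set_option autoImplicit false
set_option linter.unusedSectionVars false
set_option linter.unusedVariables false

namespace Pool.Agent.Helper97.LO

open Set Pool.Agent.Helper5.DU Pool.Agent.Helper6.Str Pool.Agent.Helper79.VC
  Pool.Agent.Helper97.VC Pool.Agent.Helper97.MD Pool.Agent.Helper79.VCM

variable {L : FirstOrder.Language.{0, 0}} {M N P : Type}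

section

variable [∀ n, IsEmpty (L.Functions n)] [∀ n, Countable (L.Relations n)]
  {K : Set (L.Structure ℕ)} {δ : Ordinal.{0}} {S : L.Structure M}

/-- **Sparse structures are tame.** -/
theorem sp (hL : Ar2 L) (hS : VSt K δ S) (b : Set (L.Relations 2))
    (h : ¬ HasTK (gr S univ b)) : TameX S univ := by
  refine sparse_tame hL hS.scat hS.lt hS.clos hS.lev b ?_
  have : ngr b S = gr S univ b := by
    ext x y
    show (x ≠ y ∧ ¬ _) ↔ (x ≠ y ∧ x ∈ univ ∧ y ∈ univ ∧ bt S x y ≠ (b, b))
    simp only [mem_univ, true_and, bt, ne_eq, Prod.mk.injEq, Set.ext_iff, mem_ofPred_eq]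
  rwa [this]

end

/-- pulling back a subdivision -/
theorem hasTK_pull {G : SimpleGraph M} {G' : SimpleGraph N} {f : N → M}
    (hf : Function.Injective f) (hadj : ∀ x y, G.Adj (f x) (f y) → G'.Adj x y)
    {b : ℕ → M} {P : ℕ → ℕ → List M} (hb : Function.Injective b)
    (h1 : ∀ i j, i < j → (b i :: (P i j ++ [b j])).Nodup ∧
      List.IsChain G.Adj (b i :: (P i j ++ [b j])))
    (h2 : ∀ i j k, i < j → b k ∉ P i j)
    (h3 : ∀ i j i' j', i < j → i' < j' → (i, j) ≠ (i', j') → List.Disjoint (P i j) (P i' j'))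
    (hbr : ∀ i, b i ∈ range f) (hPr : ∀ i j, ∀ x ∈ P i j, x ∈ range f) : HasTK G' := by
  classical
  rcases isEmpty_or_nonempty N with hN | hN
  · obtain ⟨x, -⟩ := hbr 0
    exact isEmptyElim x
  let g : M → N := Function.invFun f
  have hg : ∀ x ∈ range f, f (g x) = x := fun x hx => Function.invFun_eq hx
  have hgi : ∀ x ∈ range f, ∀ y ∈ range f, g x = g y → x = y := by
    intro x hx y hy hxy
    rw [← hg x hx, ← hg y hy, hxy]
  have hadj' : ∀ x ∈ range f, ∀ y ∈ range f, G.Adj x y → G'.Adj (g x) (g y) := by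
    intro x hx y hy hxy
    apply hadj
    rw [hg x hx, hg y hy]
    exact hxy
  have hlist : ∀ i j, ∀ x ∈ b i :: (P i j ++ [b j]), x ∈ range f := by
    intro i j x hx
    simp only [List.mem_cons, List.mem_append, List.not_mem_nil, or_false] at hx
    rcases hx with rfl | hx | rfl
    · exact hbr _
    · exact hPr i j x hx
    · exact hbr _
  have hmap : ∀ i j, g (b i) :: ((P i j).map g ++ [g (b j)]) =
      (b i :: (P i j ++ [b j])).map g := by
    intro i j
    simp
  refine ⟨fun i => g (b i), fun i j => (P i j).map g,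
    fun i j h => hb (hgi _ (hbr i) _ (hbr j) h), fun i j hij => ⟨?_, ?_⟩, ?_, ?_⟩
  · rw [hmap]
    refine List.Nodup.map_on ?_ (h1 i j hij).1
    intro x hx y hy hxy
    exact hgi x (hlist i j x hx) y (hlist i j y hy) hxy
  · rw [hmap, List.isChain_map]
    refine List.IsChain.imp_of_mem_imp ?_ (h1 i j hij).2
    intro x y hx hy hxy
    exact hadj' x (hlist i j x hx) y (hlist i j y hy) hxy
  · intro i j k hij hk
    obtain ⟨x, hx, hxk⟩ := List.mem_map.mp hk
    have := hgi x (hPr i j x hx) (b k) (hbr k) hxk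
    subst this
    exact h2 i j k hij hx
  · intro i j i' j' hij hij' hne x hx hx'
    obtain ⟨y, hy, rfl⟩ := List.mem_map.mp hx
    obtain ⟨z, hz, hzy⟩ := List.mem_map.mp hx'
    have := hgi z (hPr i' j' z hz) y (hPr i j y hy) hzy
    subst this
    exact h3 i j i' j' hij hij' hne hy hz

/-- a graph which is complete on an infinite set -/
theorem hasTK_of_complete {G : SimpleGraph M} {P : Set M} (hP : P.Infinite)
    (h : ∀ x ∈ P, ∀ y ∈ P, x ≠ y → G.Adj x y) : HasTK G := by
  let e := hP.natEmbedding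
  refine ⟨fun n => (e n : M), fun _ _ => [], fun i j hij => e.injective (Subtype.ext hij),
    fun i j hij => ?_, fun i j k _ hk => absurd hk (List.not_mem_nil),
    fun i j i' j' _ _ _ => List.disjoint_nil_left _⟩
  have hne : (e i : M) ≠ e j := fun h' => hij.ne (e.injective (Subtype.ext h'))
  refine ⟨by simpa using hne, ?_⟩
  simp only [List.nil_append, List.isChain_cons_cons, List.isChain_singleton, and_true]
  exact h _ (e i).2 _ (e j).2 hne

theorem bt_pl (S : L.Structure M) (f : N → M) [∀ n, IsEmpty (L.Functions n)] (x y : N) :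
    bt (pl S f) x y = bt S (f x) (f y) := by
  have h : ∀ a b : N, (fun i => f ((![a, b] : Fin 2 → N) i)) = ![f a, f b] := by
    intro a b
    funext i
    fin_cases i <;> rfl
  unfold bt
  have h1 : ∀ (R : L.Relations 2) (a b : N), (pl S f).RelMap R ![a, b] ↔
      S.RelMap R ![f a, f b] := by
    intro R a b
    show S.RelMap R (fun i => f ((![a, b] : Fin 2 → N) i)) ↔ _
    rw [h]
  simp only [h1]

section

variable [∀ n, IsEmpty (L.Functions n)] [∀ n, Countable (L.Relations n)]
  {K : Set (L.Structure ℕ)} {δ : Ordinal.{0}} {S : L.Structure M}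

/-- sparseness of primitive subsets is reflected from the class to the large structure -/
theorem sparsePrim_reflect (hL : Ar2 L) (hS : VSt K δ S) (h : ∀ T ∈ K, SparsePrim T) :
    SparsePrim S := by
  classical
  intro P hPinf hPrim
  by_contra hcon
  push Not at hcon
  obtain ⟨g1, hg1, hg1'⟩ := exists_prim_closure (N := ℕ) (bt S) hPrim
  let e := hPinf.natEmbedding
  have hch : ∀ b : Set (L.Relations 2), ∃ W : Set M, W.Countable ∧
      ∃ (v : ℕ → M) (Q : ℕ → ℕ → List M), Function.Injective v ∧
    (∀ i j, i < j → (v i :: (Q i j ++ [v j])).Nodup ∧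
      List.IsChain (gr S P b).Adj (v i :: (Q i j ++ [v j]))) ∧
    (∀ i j k, i < j → v k ∉ Q i j) ∧
    (∀ i j i' j', i < j → i' < j' → (i, j) ≠ (i', j') → List.Disjoint (Q i j) (Q i' j')) ∧
    (∀ i, v i ∈ W) ∧ ∀ i j, ∀ x ∈ Q i j, x ∈ W := by
    intro b
    obtain ⟨v, Q, h1, h2, h3, h4⟩ := hcon b
    refine ⟨range v ∪ ⋃ i, ⋃ j, {x | x ∈ Q i j}, ?_, v, Q, h1, h2, h3, h4, fun i => Or.inl ⟨i, rfl⟩,
      fun i j x hx => Or.inr ?_⟩
    · exact (countable_range v).union
        (countable_iUnion fun i => countable_iUnion fun j => (List.finite_toSet _).countable)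
    · simp only [mem_iUnion]
      exact ⟨i, j, hx⟩
  choose W hW hW' using hch
  obtain ⟨f, hf, hfK, hfc⟩ := exists_reflect hS.scat hS.lt hS.clos hS.lev
    (fun F => g1 F ∪ (range (fun n => (e n : M)) ∪ ⋃ x ∈ F, ⋃ y ∈ F, W (bt S x y).1))
    (fun F => (hg1 F).union ((countable_range _).union
      ((F.finite_toSet.countable).biUnion fun x _ =>
        (F.finite_toSet.countable).biUnion fun y _ => hW _)))
  have hbt : (fun a b => bt S (f a) (f b)) = bt (pl S f) := by
    funext a b
    rw [bt_pl]
  have hprim : IsPrim (bt (pl S f)) (f ⁻¹' P) := by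
    have := hg1' f hf (fun F hF x hx => hfc F hF (Or.inl hx))
    rwa [hbt] at this
  have hinf : (f ⁻¹' P).Infinite := by
    have hsub : range (fun n => (e n : M)) ⊆ range f := fun x hx =>
      hfc ∅ (by simp) (Or.inr (Or.inl hx))
    intro hfin
    have h1 : (f '' (f ⁻¹' P)).Finite := hfin.image f
    rw [image_preimage_eq_inter_range] at h1
    have h2 : (range (fun n => (e n : M))).Finite := h1.subset (by
      rintro _ ⟨n, rfl⟩
      exact ⟨(e n).2, hsub ⟨n, rfl⟩⟩)
    exact (infinite_range_of_injective (fun i j hij => e.injective (Subtype.ext hij))) h2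
  obtain ⟨b, hb⟩ := h _ hfK _ hinf hprim
  apply hb
  by_cases hocc : ∃ x ∈ f ⁻¹' P, ∃ y ∈ f ⁻¹' P, bt (pl S f) x y = (b, b)
  · obtain ⟨x, hx, y, hy, hxy⟩ := hocc
    rw [bt_pl] at hxy
    obtain ⟨v, Q, h1, h2, h3, h4, h5, h6⟩ := hW' b
    have hWr : W b ⊆ range f := by
      intro w hw
      refine hfc {f x, f y} ?_ (Or.inr (Or.inr ?_))
      · intro a ha
        simp only [Finset.coe_insert, Finset.coe_singleton, mem_insert_iff,
          mem_singleton_iff] at ha
        rcases ha with rfl | rfl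
        · exact mem_range_self _
        · exact mem_range_self _
      · simp only [mem_iUnion]
        refine ⟨f x, by simp, f y, by simp, ?_⟩
        rw [hxy]
        exact hw
    refine hasTK_pull (G := gr S P b) hf ?_ h1 h2 h3 h4 (fun i => hWr (h5 i))
      (fun i j x hx => hWr (h6 i j x hx))
    rintro x' y' ⟨hne, hx', hy', hbt'⟩
    refine ⟨fun h => hne (by rw [h]), hx', hy', ?_⟩
    rw [bt_pl]
    exact hbt'
  · push Not at hocc
    refine hasTK_of_complete hinf fun x hx y hy hxy => ⟨hxy, hx, hy, hocc x hx y hy⟩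

end

end Pool.Agent.Helper97.LO
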